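import Mathlib
import Pool.Agent.H26.RG0

set_option autoImplicit false

open Filter Topology Finset
open scoped ComplexOrder ENNReal

namespace Pool.Agent.Results.MP_3f33d0_an.Counterexample

open H26 RG0

def Comm {E : Type} (ι : E → ℤ × ℤ → ℂ) (T : E → E) : Prop :=
  ∀ t f h, (∀ s, ι h s = ι f (s + t)) → ∀ s, ι (T h) s = ι (T f) (s + t)

abbrev L1 : Type := lp (fun _ : ℤ => ℂ) 1

abbrev E : Type := ZeroAtInftyContinuousMap ℤ L1

lemma row (f : E) (m : ℤ) : ‖f m‖ ≤ ‖f‖ := f.toBCF.norm_coe_le_norm m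

lemma nle {f : E} {c : ℝ} (hc : 0 ≤ c) (h : ∀ m, ‖f m‖ ≤ c) : ‖f‖ ≤ c :=
  (BoundedContinuousFunction.norm_le hc (f := f.toBCF)).2 h

lemma lim (f : E) : Tendsto f cofinite (𝓝 0) := cocompact_eq_cofinite ℤ ▸ zero_at_infty f

def mk (v : ℤ → L1) (h : Tendsto v cofinite (𝓝 0)) : E :=
  ⟨⟨v, continuous_of_discreteTopology⟩, (cocompact_eq_cofinite ℤ).symm ▸ h⟩

noncomputable def ev (s : ℤ × ℤ) : E →L[ℂ] ℂ :=
  LinearMap.mkContinuous ⟨⟨fun f => f s.1 s.2, fun _ _ => rfl⟩, fun _ _ => rfl⟩ 1 fun f =>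
    (lp.norm_apply_le_norm one_ne_zero _ _).trans ((row f _).trans_eq (one_mul _).symm)

lemma ev_le (s : ℤ × ℤ) (f : E) : ‖ev s f‖ ≤ ‖f‖ := (lp.norm_apply_le_norm one_ne_zero _ _).trans (row f _)

lemma ext {f g : E} (h : ∀ s, ev s f = ev s g) : f = g :=
  ZeroAtInftyContinuousMap.ext fun m => lp.ext (funext fun n => h (m, n))

lemma mono (f g : E) (h : ∀ s, ‖ev s g‖ ≤ ‖ev s f‖) : ‖g‖ ≤ ‖f‖ :=
  nle (norm_nonneg f) fun m => (lp.norm_mono one_ne_zero fun n => h (m, n)).trans (row f m)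

noncomputable def tau (t : ℤ × ℤ) : E →L[ℂ] E :=
  LinearMap.mkContinuous ⟨⟨fun f => mk (fun m => re 1 (by simp) (Equiv.addRight t.2) (f (m + t.1)))
    (((re 1 (by simp) (Equiv.addRight t.2)).continuous.tendsto' 0 0 (map_zero _)).comp ((lim f).comp
      (add_left_injective t.1).tendsto_cofinite)), fun _ _ => rfl⟩, fun _ _ => rfl⟩ 1 fun f =>
    nle (by positivity) fun m => ((re 1 (by simp) (Equiv.addRight t.2)).norm_map _).trans_le
      ((row f (m + t.1)).trans_eq (one_mul _).symm)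

lemma ev_tau (s t : ℤ × ℤ) (f : E) : ev s (tau t f) = ev (s + t) f := rfl

lemma tau_le (t : ℤ × ℤ) (f : E) : ‖tau t f‖ ≤ ‖f‖ :=
  nle (norm_nonneg f) fun m => ((re 1 (by simp) (Equiv.addRight t.2)).norm_map _).trans_le (row f (m + t.1))

noncomputable def J (m : ℤ) : L1 →L[ℂ] E :=
  LinearMap.mkContinuous ⟨⟨fun v => mk (Pi.single m v) (tendsto_const_nhds.congr'
    ((eventually_cofinite_ne m).mono fun _ h => (Pi.single_eq_of_ne (M := fun _ => L1) h v).symm)), fun u v =>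
      ZeroAtInftyContinuousMap.ext (congrFun (Pi.single_add (f := fun _ => L1) m u v))⟩, fun c v =>
        ZeroAtInftyContinuousMap.ext (congrFun (Pi.single_smul (f := fun _ => L1) m c v))⟩ 1 fun v =>
    nle (by positivity) fun k => by
      change ‖(Pi.single m v : ℤ → L1) k‖ ≤ _
      rw [Pi.single_apply]
      split_ifs <;> simp

lemma J_sum (F : Finset ℤ) (v : ℤ → L1) (k : ℤ) : (∑ m ∈ F, J m (v m)) k = if k ∈ F then v k else 0 := by
  rw [← sum_pi_single]
  exact map_sum (⟨⟨fun f : E => f k, rfl⟩, fun _ _ => rfl⟩ : E →+ L1) _ F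

noncomputable def dl (r : ℤ × ℤ) : E := J r.1 (lp.single 1 r.2 1)

lemma ev_dl (s r : ℤ × ℤ) : ev s (dl r) = if s = r then 1 else 0 := by
  change (Pi.single r.1 (lp.single 1 r.2 1) : ℤ → L1) s.1 s.2 = _
  by_cases h : s.1 = r.1 <;> simp [h, Pi.single_apply, Prod.ext_iff]

lemma ext_dl {D D' : E →L[ℂ] E} (h : ∀ r, D (dl r) = D' (dl r)) : D = D' := by
  refine ContinuousLinearMap.ext fun f => ?_
  have h1 : HasSum (fun m => J m (f m)) f := Metric.tendsto_nhds.2 fun ε hε => by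
    have := (Metric.tendsto_nhds.1 (lim f) _ (half_pos hε))
    filter_upwards [eventually_ge_atTop (mem_cofinite.1 this).toFinset] with F hF
    rw [dist_eq_norm]
    refine (nle (half_pos hε).le fun m => ?_).trans_lt (half_lt_self hε)
    rw [ZeroAtInftyContinuousMap.sub_apply, J_sum]
    split_ifs with h
    · simpa using (half_pos hε).le
    · rw [zero_sub, norm_neg, ← dist_zero_right]
      exact le_of_lt (not_not.1 fun h' => h (hF ((Set.Finite.mem_toFinset _).2 h')))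
  refine (h1.mapL D).unique ((funext fun m => ?_ : _ = fun m => D (J m (f m))) ▸ h1.mapL D')
  exact DFunLike.congr_fun (lp.ext_continuousLinearMap (f := D'.comp (J m)) (g := D.comp (J m)) (by simp)
    fun n => ContinuousLinearMap.ext_ring (h (m, n)).symm) (f m)

lemma colsum {κ : Type} (S : Finset κ) (φ : κ → ℤ) (h : Set.InjOn φ S) (f : E) (m : ℤ) :
    ∑ x ∈ S, ‖ev (m, φ x) f‖ ≤ ‖f‖ := by
  have := lp.sum_rpow_le_norm_rpow (by simp) (f m) (S.image φ)
  simp only [ENNReal.toReal_one, Real.rpow_one, sum_image h] at this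
  exact this.trans (row f m)

lemma rowsum (F : Finset ℤ) (φ : ℤ → ℤ) : ‖∑ m ∈ F, dl (m, φ m)‖ ≤ 1 :=
  nle zero_le_one fun k => by
    rw [show ∑ m ∈ F, dl (m, φ m) = ∑ m ∈ F, J m (lp.single 1 (φ m) 1) from rfl, J_sum]
    split_ifs <;> simp

lemma summ (T : E →L[ℂ] E) (a : E) (h1 : ∀ r s, ev s (T (dl r)) = ev (s - r) a) (S : Finset (ℤ × ℤ)) :
    ∑ s ∈ S, ‖ev s a‖ ≤ ‖T‖ := by
  have k : ∀ {c : ℤ} (d : ℤ), c ≠ 0 → Tendsto (fun N : ℕ => d + N * c) atTop cofinite := fun d hc =>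
    Nat.cofinite_eq_atTop ▸ Function.Injective.tendsto_cofinite fun a b h => by simpa [hc] using h
  refine le_of_tendsto (x := atTop) (tendsto_finsetSum S (f := fun s (N : ℕ) => ‖∑ m ∈ S.image (- ·.1),
    ev (-m, s.2 + N * (s.1 + m)) a‖) fun s hs => .norm ?_) ?_
  · rw [← sum_ite_eq_of_mem' (S.image (- ·.1)) (-s.1) (fun _ => ev s a) (mem_image_of_mem _ hs)]
    refine tendsto_finsetSum _ fun m _ => ?_
    split_ifs with h
    · simp [h]
    · exact ((lp.memℓp (a (-m))).summable_of_one.tendsto_cofinite_zero).comp (k _ (by omega))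
  · filter_upwards [(eventually_all_finset S).2 fun s _ => (eventually_all_finset S).2 fun s' _ =>
      show ∀ᶠ N : ℕ in atTop, s.2 + N * s.1 = s'.2 + N * s'.1 → s = s' by
        rcases eq_or_ne s.1 s'.1 with h | h
        · exact .of_forall fun N h' => Prod.ext h (by simpa [h] using h')
        · exact ((k s.2 (sub_ne_zero.2 h)).eventually (eventually_cofinite_ne s'.2)).mono
            fun N h1 h2 => absurd (by linarith) h1] with N hN
    refine le_trans (le_of_eq (sum_congr rfl fun s _ => ?_)) ((colsum S (fun s => s.2 + N * s.1)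
      (fun s a s' b => hN s a s' b) _ 0).trans (T.unit_le_opNorm _ (rowsum (S.image (- ·.1))
        fun m => -(N * m))))
    simp [h1, mul_add, add_assoc]

lemma four (z : ℂ) : ∃ b : Fin 4 → ℝ, (∀ i, 0 ≤ b i ∧ b i ≤ ‖z‖) ∧
    z = ∑ i, ![1, -1, Complex.I, -Complex.I] i * b i := by
  have a1 := abs_le'.1 z.abs_re_le_norm
  have a2 := abs_le'.1 z.abs_im_le_norm
  refine ⟨![z.re⁺, z.re⁻, z.im⁺, z.im⁻], fun i => ?_, Complex.ext ?_ ?_⟩
  · fin_cases i <;> simp [posPart_def, negPart_def, a1, a2]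
  all_goals simp [Fin.sum_univ_four, ← sub_eq_add_neg]

lemma sum_op {X ι : Type} [NormedAddCommGroup X] [NormedSpace ℂ X] [CompleteSpace X] (R : ι → X →L[ℂ] X)
    {g : ι → ℝ} (hg : Summable g) (h : ∀ i, ‖R i‖ ≤ g i) :
    ∃ T : X →L[ℂ] X, ∀ f, HasSum (fun i => R i f) (T f) :=
  ⟨_, fun f => (hg.of_norm_bounded h).hasSum.mapL (ContinuousLinearMap.apply ℂ _ f)⟩

lemma conv (b : ℤ × ℤ → ℝ) (h0 : ∀ t, 0 ≤ b t) (h : Summable b) : ∃ P : E →L[ℂ] E,
    Pos (fun f s => ev s f) P ∧ ∀ r s, ev s (P (dl r)) = b (s - r) := by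
  obtain ⟨P, hP⟩ := sum_op (fun t => (b t : ℂ) • tau (-t)) h fun t =>
    ContinuousLinearMap.opNorm_le_bound _ (h0 t) fun f => by
      rw [smul_apply, norm_smul, Complex.norm_of_nonneg (h0 t)]
      exact mul_le_mul_of_nonneg_left (tau_le _ f) (h0 t)
  have h5 : ∀ f s, HasSum (fun t => b t * ev (s + -t) f) (ev s (P f)) :=
    fun f s => (hP f).mapL (ev s)
  refine ⟨P, fun f hf s => (h5 f s).nonneg fun t => mul_nonneg (Complex.zero_le_real.2 (h0 t)) (hf _),
    fun r s => ((h5 _ s).unique (hasSum_single (s - r) fun t ht => ?_)).trans (by simp [ev_dl])⟩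
  rw [ev_dl, if_neg fun h => ht (by rw [← h]; abel), mul_zero]

lemma regular (T : E →L[ℂ] E) (h : Comm (fun f s => ev s f) T) : Regular (fun f s => ev s f) T := by
  have h1 : ∀ r s, ev s (T (dl r)) = ev (s - r) (T (dl 0)) := fun r s =>
    (h (-r) (dl 0) _ (fun s => by simp [ev_dl, add_neg_eq_zero]) s).trans (by rw [sub_eq_add_neg])
  generalize T (dl 0) = a at h1
  have h2 := summable_of_sum_le (fun _ => norm_nonneg _) (summ T a h1)
  choose b b1 b2 using fun s => four (ev s a)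
  choose P p1 p2 using fun i => conv (b · i) (fun t => (b1 t i).1) (h2.of_nonneg_of_le
    (fun t => (b1 t i).1) fun t => (b1 t i).2)
  refine ⟨4, ![1, -1, Complex.I, -Complex.I], fun i => (P i).toLinearMap, p1,
    fun f => (DFunLike.congr_fun (ext_dl (D' := ∑ i, ![1, -1, Complex.I, -Complex.I] i • P i)
      fun r => ext fun s => ?_) f).trans (by simp)⟩
  rw [h1, b2, _root_.sum_apply, map_sum]
  exact sum_congr rfl fun i _ => by rw [← p2]; rfl

lemma signs (z : ℤ → ℂ) (s : Finset ℤ) : ∑ A ∈ s.powerset, ‖∑ j ∈ s, (if j ∈ A then 1 else -1) * z j‖ ^ 2 =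
    2 ^ s.card * ∑ j ∈ s, ‖z j‖ ^ 2 := by
  induction s using Finset.induction_on with
  | empty => simp
  | insert k s hk ih =>
    rw [sum_powerset_insert hk, ← sum_add_distrib, card_insert_of_notMem hk, sum_insert hk, pow_succ,
      sum_congr rfl (g := fun A => 2 * (‖∑ j ∈ s, (if j ∈ A then 1 else -1) * z j‖ ^ 2 + ‖z k‖ ^ 2))
        fun A hA => ?_, ← mul_sum, sum_add_distrib, ih, sum_const, card_powerset]
    · simp only [nsmul_eq_mul, Nat.cast_pow, Nat.cast_ofNat]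
      ring
    · rw [← parallelogram_law_with_norm ℂ, sum_insert hk, sum_insert hk, if_neg (notMem_mono
        (mem_powerset.1 hA) hk), if_pos (mem_insert_self _ _), add_comm, one_mul, add_comm (z k), neg_one_mul,
        neg_add_eq_sub, sum_congr rfl fun j hj => by rw [if_congr (mem_insert.trans (or_iff_right
          (ne_of_mem_of_not_mem hj hk))) rfl rfl]]

def cd (A : Finset ℤ) : ℤ × ℤ := (0, Encodable.encode A)

lemma cd_sum {s A : Finset ℤ} (hA : A ∈ s.powerset) (c : Finset ℤ → ℂ) :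
    ev (cd A) (∑ B ∈ s.powerset, c B • dl (cd B)) = c A := by
  simp only [map_sum, map_smul, ev_dl, cd, Prod.mk.injEq, true_and, Nat.cast_inj,
    Encodable.encode_inj, smul_eq_mul, mul_ite, mul_one, mul_zero, sum_ite_eq, if_pos hA]

lemma block (s : Finset ℤ) {c d : ℝ} (h0 : 0 ≤ c) (h1 : 0 ≤ d) (h : s.card = d ^ 2) :
    ∃ R : E →L[ℂ] E, ‖R‖ ≤ c * d ∧ (∀ j ∉ s, R (dl (j, 0)) = 0) ∧
      ∀ j ∈ s, ∀ A ∈ s.powerset, ‖ev (cd A) (R (dl (j, 0)))‖ = c / 2 ^ s.card := by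
  obtain ⟨R, r1⟩ : ∃ R : E →L[ℂ] E, ∀ f, R f = ((c / 2 ^ s.card : ℝ) : ℂ) • ∑ A ∈ s.powerset,
      (∑ j ∈ s, (if j ∈ A then 1 else -1) * ev (j, 0) f) • dl (cd A) :=
    ⟨((c / 2 ^ s.card : ℝ) : ℂ) • ∑ A ∈ s.powerset, (∑ j ∈ s, (if j ∈ A then (1 : ℂ) else -1) •
      ev (j, 0)).smulRight (dl (cd A)), fun f => by
        simp only [smul_apply, _root_.sum_apply, ContinuousLinearMap.smulRight_apply, smul_eq_mul]⟩
  have c1 : ‖((c / 2 ^ s.card : ℝ) : ℂ)‖ = c / 2 ^ s.card := Complex.norm_of_nonneg (by positivity)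
  refine ⟨R, R.opNorm_le_bound (by positivity) fun f => ?_, fun j hj => ?_, fun j hj A hA => ?_⟩
  · have : ∑ A ∈ s.powerset, ‖∑ j ∈ s, (if j ∈ A then 1 else -1) * ev (j, 0) f‖ ≤
        2 ^ s.card * (d * ‖f‖) := by
      refine le_of_sq_le_sq (sq_sum_le_card_mul_sum_sq.trans ?_) (by positivity)
      rw [signs, card_powerset, mul_pow, mul_pow, sq (2 ^ _ : ℝ), mul_assoc, ← h, ← nsmul_eq_mul s.card]
      push_cast
      gcongr
      exact sum_le_card_nsmul _ _ _ fun j _ => pow_le_pow_left₀ (norm_nonneg _) (ev_le _ f) 2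
    rw [r1, norm_smul, c1]
    refine (mul_le_mul_of_nonneg_left ((norm_sum_le_of_le _ fun A _ => (norm_smul_le _ _).trans
      (mul_le_of_le_one_right (norm_nonneg _) (by simpa using rowsum {0} fun _ => (cd A).2))).trans this)
      (by positivity)).trans_eq ?_
    field_simp
  · rw [r1, sum_eq_zero fun A _ => ?_, smul_zero]
    rw [sum_eq_zero fun i hi => ?_, zero_smul]
    rw [ev_dl, if_neg (c := (i, 0) = (j, 0)) fun h => hj ((Prod.mk.inj h).1 ▸ hi), mul_zero]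
  · rw [r1, map_smul, cd_sum hA, norm_smul, c1]
    simp only [ev_dl, Prod.mk.injEq, and_true, mul_ite, mul_one, mul_zero, sum_ite_eq', if_pos hj]
    split_ifs <;> simp

lemma nonreg : ∃ T : E →L[ℂ] E, ¬ Regular (fun f s => ev s f) T := by
  obtain ⟨s, s1, s2⟩ : ∃ s : ℕ → Finset ℤ, (∀ k, ((s k).card : ℝ) = (4 ^ k) ^ 2) ∧
      ∀ k l j, j ∈ s k → j ∈ s l → k ≤ l :=
    ⟨fun k => Ico (16 ^ k) (16 ^ k + 16 ^ k), fun k => by
      rw [← pow_mul, mul_comm, pow_mul]
      have : ((Ico (16 ^ k) (16 ^ k + 16 ^ k) : Finset ℤ).card : ℤ) = (4 ^ 2) ^ k := by simp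
      exact_mod_cast this, fun k l j a b => by
      by_contra! h
      have := pow_le_pow_right₀ (show (1 : ℤ) ≤ 16 by norm_num) (Nat.succ_le_of_lt h)
      simp only [mem_Ico, pow_succ] at a b this
      omega⟩
  choose R r1 r2 r3 using fun k => block (s k) (c := (1 / 8) ^ k) (by positivity) (by positivity) (s1 k)
  obtain ⟨T, hT⟩ := sum_op R summable_geometric_two fun k => (r1 k).trans_eq (by
    rw [← mul_pow]; norm_num)
  refine ⟨T, fun H => ?_⟩
  obtain ⟨C, hC⟩ := reg_bdd ev mono H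
  obtain ⟨k, hk⟩ := pow_unbounded_of_one_lt |C| one_lt_two
  have h3 : ∀ j ∈ s k, T (dl (j, 0)) = R k (dl (j, 0)) := fun j hj =>
    (hT _).unique (hasSum_single k fun l hl =>
      r2 l j fun h => hl (le_antisymm (s2 _ _ _ h hj) (s2 _ _ _ hj h)))
  have h4 := hC _ (s k) (fun j => dl (j, 0)) (∑ B ∈ (s k).powerset, ((2 : ℂ) ^ k / 2 ^ (s k).card) •
    dl (cd B)) (fun j s => by rw [ev_dl]; split_ifs <;> simp) fun x => by
      by_cases h : ∃ A ∈ (s k).powerset, cd A = x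
      · obtain ⟨A, hA, rfl⟩ := h
        rw [cd_sum hA fun _ => _, sum_congr rfl fun j hj => (h3 j hj).symm ▸ r3 k j hj A hA, sum_const,
          nsmul_eq_mul, s1, ← mul_div_assoc, ← pow_mul, mul_comm k, pow_mul, ← mul_pow]
        norm_num
      · rw [map_sum, sum_eq_zero fun A hA => by
          rw [map_smul, ev_dl, if_neg fun h' => h ⟨A, hA, h'.symm⟩, smul_zero], norm_zero]
        positivity
  have h5 := colsum (s k).powerset (fun A => Encodable.encode A) (fun _ _ _ _ h => by simpa using h)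
    (∑ B ∈ (s k).powerset, ((2 : ℂ) ^ k / 2 ^ (s k).card) • dl (cd B)) 0
  replace h5 := (sum_congr rfl fun A hA => congrArg norm (cd_sum hA fun _ => _)).ge.trans h5
  rw [sum_const, card_powerset] at h5
  refine hk.not_ge (le_trans (le_of_eq ?_) (h5.trans (h4.trans ((mul_le_mul_of_nonneg_right (le_abs_self C)
    (norm_nonneg _)).trans (mul_le_of_le_one_right (abs_nonneg C) (rowsum _ fun _ => 0))))))
  simp
  field_simp

theorem result : ∃ (E : Type) (_ : NormedAddCommGroup E) (_ : NormedSpace ℂ E) (_ : CompleteSpace E)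
    (ι : E →ₗ[ℂ] ℤ × ℤ → ℂ), Function.Injective ι ∧
    (∀ (f : E) (g : ℤ × ℤ → ℂ), (∀ s, ‖g s‖ ≤ ‖ι f s‖) → ∃ h, ι h = g ∧ ‖h‖ ≤ ‖f‖) ∧
    (∀ (t : ℤ × ℤ) (f : E), ∃ h, (∀ s, ι h s = ι f (s + t)) ∧ ‖h‖ = ‖f‖) ∧
    (∃ T : E →L[ℂ] E, ¬ Regular ι T) ∧ ∀ T : E →L[ℂ] E, Comm ι T → Regular ι T :=
  ⟨E, inferInstance, inferInstance, inferInstance, LinearMap.pi fun s => (ev s).toLinearMap,
    fun _ _ h => ext (congrFun h), fun f g h => ⟨mk (fun m => ⟨fun n => g (m, n), (lp.memℓp (f m)).mono'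
      fun n => h (m, n)⟩) (squeeze_zero_norm (fun m => lp.norm_mono one_ne_zero fun n => h (m, n))
        (tendsto_zero_iff_norm_tendsto_zero.1 (lim f))), rfl, mono _ _ h⟩, fun t f => ⟨tau t f,
      fun _ => rfl, (tau_le t f).antisymm ((congrArg norm (ext fun s => by
        simp [ev_tau] : f = tau (-t) (tau t f))).trans_le (tau_le _ _))⟩, nonreg, regular⟩

end Pool.Agent.Results.MP_3f33d0_an.Counterexample
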